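import Pool.Agent.Lib.KR91.Avg
import Pool.Agent.Lib.HS68.Fun
import Pool.Agent.Lib.HS76.Pt
import Pool.Agent.Lib.RB.B_RBR

/-! The pointwise algebra for the curvature tensor of a Kähler metric, in matrix form. -/

open scoped ComplexOrder Matrix
open Complex ComplexConjugate Finset

set_option linter.unusedVariables false
set_option linter.unusedSectionVars false

noncomputable section

namespace Pool.Agent.Lib.KR91

open Pool.Agent.Lib.SV (E)
open Pool.Agent.Lib.HS32 Pool.Agent.Lib.HS68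

variable {n K : ℕ}

/-- The sesquilinear form of a matrix. -/
def sf (A : Mat n) (x y : E n) : ℂ := star y ⬝ᵥ A *ᵥ x

theorem her_sf {A : Mat n} (hA : A.IsHermitian) : Her (sf A) where
  add x y z := by rw [sf, Matrix.mulVec_add, dotProduct_add]; rfl
  smul c x z := by rw [sf, Matrix.mulVec_smul, dotProduct_smul]; rfl
  cj x y := by
    rw [sf, sf, starRingEnd_apply, Matrix.star_dotProduct, Matrix.star_mulVec, hA.eq,
      ← Matrix.dotProduct_mulVec]

theorem pos_sf {A : Mat n} (hA : A.PosDef) (x : E n) (hx : x ≠ 0) : 0 < (sf A x x).re :=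
  hA.re_dotProduct_pos hx

theorem kt_rm {H : E n → Mat n} {z : E n} (h : Loc H z) (hK : Kl H z) : Kt (rm H z) := by
  have e : rm H z = HS76.q4 fun k l i j => (H z * th H k l z) j i := by
    funext a b v w
    exact (HS76.q4_fam (fun k l => H z * th H k l z) a b v w).symm
  have k := HS76.k4_q4 (R := fun k l i j => (H z * th H k l z) j i)
    (fun k l i j => h.mul_th_symm hK k l i j) (fun k l i j => h.mul_th_symm' hK k l i j)
  rw [e]
  exact ⟨k.add1, k.smul1, k.s13, fun a b v w => (HS76.q4_star (fun k l i j => by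
    rw [← h.mul_th_herm k l]; rfl) a b v w).symm⟩

theorem three_sf (A : Mat n) (hn : 3 ≤ n) (x y : E n) :
    ∃ w, w ≠ 0 ∧ sf A w x = 0 ∧ sf A w y = 0 := by
  let f : E n →ₗ[ℂ] (Fin 2 → ℂ) := (Matrix.of ![star x ᵥ* A, star y ᵥ* A]).mulVecLin
  have : LinearMap.ker f ≠ ⊥ := LinearMap.ker_ne_bot_of_finrank_lt (by simp; omega)
  obtain ⟨w, h1, h2⟩ := Submodule.exists_mem_ne_zero_of_ne_bot this
  exact ⟨w, h2, by simpa [f, sf, Matrix.mulVec, Matrix.dotProduct_mulVec] using congrFun h1 0,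
    by simpa [f, sf, Matrix.mulVec, Matrix.dotProduct_mulVec] using congrFun h1 1⟩

theorem ext_sf {A : Mat n} (hA : A.PosDef) (hn : 2 ≤ n) (v w : E n) (hv : sf A v v = 1)
    (hw : sf A w w = 1) (h0 : sf A v w = 0) :
    ∃ (e : Fin n → E n) (i j : Fin n), i ≠ j ∧ e i = v ∧ e j = w ∧ Uni (sf A) e := by
  obtain ⟨W, -, h1, -⟩ := HS76.simul_diag hA hA.1
  have e1 : W * (Wᴴ * A) = 1 := mul_eq_one_comm.1 h1
  have ip : ∀ x y : E n, sf A (W *ᵥ x) (W *ᵥ y) =
      inner ℂ (WithLp.toLp 2 y : EuclideanSpace ℂ (Fin n)) (WithLp.toLp 2 x) := fun x y => by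
    rw [EuclideanSpace.inner_toLp_toLp, sf, Matrix.star_mulVec, ← Matrix.dotProduct_mulVec,
      Matrix.mulVec_mulVec, Matrix.mulVec_mulVec, h1, Matrix.one_mulVec, dotProduct_comm]
  have bk : ∀ x : E n, W *ᵥ ((Wᴴ * A) *ᵥ x) = x := fun x => by
    rw [Matrix.mulVec_mulVec, e1, Matrix.one_mulVec]
  obtain ⟨i, j, hij⟩ : ∃ i j : Fin n, i ≠ j := ⟨⟨0, by omega⟩, ⟨1, by omega⟩, by simp⟩
  let u : Fin n → EuclideanSpace ℂ (Fin n) := fun a =>
    WithLp.toLp 2 ((Wᴴ * A) *ᵥ if a = i then v else w)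
  have hu : Orthonormal ℂ (({i, j} : Set (Fin n)).domRestrict u) := by
    rw [orthonormal_iff_ite]
    rintro ⟨a, ha⟩ ⟨b, hb⟩
    simp only [Set.domRestrict_apply, u, ← ip, bk, Subtype.mk.injEq]
    rcases ha with rfl | rfl <;> rcases hb with rfl | rfl <;>
      simp [hij, hij.symm, hv, hw, h0, (her_sf hA.1).perp h0]
  obtain ⟨b, hb⟩ := hu.exists_orthonormalBasis_extension_of_card_eq (by simp)
  refine ⟨fun a => W *ᵥ (b a).ofLp, i, j, hij, ?_, ?_, fun p q => ?_⟩
  · simp only [hb i (by simp), u, if_true, bk]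
  · simp only [hb j (by simp), u, if_neg hij.symm, bk]
  · rw [ip, WithLp.toLp_ofLp, WithLp.toLp_ofLp, orthonormal_iff_ite.1 b.orthonormal]
    simp only [eq_comm]

theorem tr_sf {ξ : Mat n} {u : Fin n → E n} (h : ∀ k l, ξ k l = ∑ i, u i k * star (u i l))
    (A : Mat n) : (ξ * A).trace = ∑ i, sf A (u i) (u i) := by
  have e : ξ = (Matrix.of u)ᵀ * (Matrix.of u)ᵀᴴ := by
    ext k l; rw [h]; rfl
  rw [e, Matrix.mul_assoc, Matrix.trace_mul_comm, Matrix.mul_assoc]
  rfl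

theorem tr_sf2 {ξ : Mat n} {u : Fin n → E n} (h : ∀ k l, ξ k l = ∑ i, u i k * star (u i l))
    (A B : Mat n) : (ξ * A * ξ * B).trace = ∑ i, ∑ j, sf B (u i) (u j) * sf A (u j) (u i) := by
  have e : ξ = (Matrix.of u)ᵀ * (Matrix.of u)ᵀᴴ := by
    ext k l; rw [h]; rfl
  have f : (ξ * A * ξ * B).trace = ((Matrix.of u)ᵀᴴ * (A * (Matrix.of u)ᵀ) *
      ((Matrix.of u)ᵀᴴ * (B * (Matrix.of u)ᵀ))).trace := by
    rw [e, Matrix.mul_assoc, Matrix.mul_assoc, Matrix.mul_assoc, Matrix.trace_mul_comm]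
    simp only [Matrix.mul_assoc]
  rw [f]
  refine sum_congr rfl fun i _ => (?_ : _ = ∑ j, sf A (u j) (u i) * sf B (u i) (u j)).trans
    (sum_congr rfl fun j _ => mul_comm _ _)
  rfl

theorem uni_sum {A : Mat n} {e : Fin n → E n} (he : Uni (sf A) e) (T : Mat n) :
    ∑ i, sf (A * T) (e i) (e i) = T.trace := by
  have a : (Matrix.of e)ᵀᴴ * (A * (Matrix.of e)ᵀ) = 1 := by
    ext i j
    rw [Matrix.one_apply]
    exact (he j i).trans (by simp only [eq_comm])
  rw [← Matrix.mul_assoc] at a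
  rw [← tr_sf (ξ := (Matrix.of e)ᵀ * (Matrix.of e)ᵀᴴ) (u := e) fun k l => rfl, ← Matrix.mul_assoc,
    Matrix.mul_assoc _ _ A, mul_eq_one_comm.1 a, Matrix.one_mul]

theorem trc_rm {H : E n → Mat n} {z : E n} (h : Loc H z) (e : Fin n → E n)
    (he : Uni (sf (H z)) e) (x : E n) :
    (sf (-ricF H z) x x).re = -∑ i, (rm H z x x (e i) (e i)).re := by
  rw [← re_sum, ← neg_re]
  congr 1
  have a : ∑ i, rm H z x x (e i) (e i) = ∑ k, ∑ l, x k * star (x l) * (th H k l z).trace := by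
    simp only [rm, ← uni_sum he, mul_sum]
    exact sum_comm.trans (sum_congr rfl fun k _ => sum_comm)
  rw [a, sf, Matrix.neg_mulVec, dotProduct_neg, sum_comm]
  simp only [dotProduct, Matrix.mulVec, h.ric_apply, mul_sum, Pi.star_apply, neg_inj]
  exact sum_congr rfl fun k _ => sum_congr rfl fun l _ => by ring

/-- Section A for a Kähler metric. -/
theorem pk_rm {H : E n → Mat n} {z : E n} (h : Loc H z) (hK : Kl H z) (h2 : 2 ≤ K)
    (hn : K + 1 ≤ n) (hR : ∀ (e : Fin K → E n) (i : Fin K),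
      (∀ a b, star (e a) ⬝ᵥ H z *ᵥ e b = if a = b then 1 else 0) →
      ∑ j, (rm H z (e i) (e i) (e j) (e j)).re ≤ 0) :
    Pk (sf (H z)) (sf (-ricF H z)) (rm H z) ((K : ℝ) - 1) ((n : ℝ) - K) :=
  pk_of (her_sf h.pos.1) (pos_sf h.pos) (her_sf h.ric_herm.neg) (kt_rm h hK) h2 hn
    (three_sf _ (by omega)) (ext_sf h.pos (by omega)) (trc_rm h)
    (sub_of_frame fun e i he => hR e i fun a b => (he b a).trans (by simp only [eq_comm]))

section Gen

variable {V : Type} [AddCommGroup V] [Module ℂ V] {g η : V → V → ℂ} {R : V → V → V → V → ℂ}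
  {al be : ℝ}

theorem Kt.sc4 (h : Kt R) (a : ℂ) (u : V) :
    (R (a • u) (a • u) (a • u) (a • u)).re = normSq a ^ 2 * (R u u u u).re := by
  rw [h.smul, h.smul2, h.smul3, h.smul4, ← mul_assoc, ← mul_assoc (a * _), ← mul_assoc, mul_conj,
    mul_assoc _ a, mul_conj, ← ofReal_mul, re_ofReal_mul, sq]

theorem Her.sc2 (h : Her g) (a : ℂ) (u : V) : g (a • u) (a • u) = normSq a * g u u := by
  rw [h.smul, h.smul2, ← mul_assoc, mul_conj]

theorem Pk.dq_smul (h : Pk g η R al be) (a : ℂ) (u : V) :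
    dq g η R al be (a • u) = normSq a ^ 2 * dq g η R al be u := by
  rw [dq, dq, h.hR.sc4, h.hg.sc2, h.he.sc2, re_ofReal_mul, re_ofReal_mul]
  ring

/-- A null vector is a multiple of a unit null vector. -/
theorem Pk.unit (h : Pk g η R al be) {X : V} (h0 : X ≠ 0) (hX : dq g η R al be X = 0) :
    ∃ (a : ℂ) (v : V), a ≠ 0 ∧ Nv g η R al be v ∧ X = a • v := by
  obtain ⟨r, v, h1, e⟩ := (h.hg.unit h.pos X).resolve_left h0
  have p : (r : ℂ) ≠ 0 := fun q => h0 (by rw [e, q, zero_smul])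
  rw [e, h.dq_smul] at hX
  exact ⟨r, v, p, ⟨h1, (mul_eq_zero.1 hX).resolve_left (pow_ne_zero _ (normSq_pos.2 p).ne')⟩, e⟩

theorem Pk.vv_smul (h : Pk g η R al be) {u : V} (hu : Nv g η R al be u) (a : ℂ) (X Y : V) :
    R (a • u) (a • u) X Y = (R u u u u).re * (((-1 / al : ℝ) : ℂ) * g (a • u) (a • u) * g X Y +
      (1 - ((-1 / al : ℝ) : ℂ)) * g X (a • u) * g (a • u) Y) := by
  have e := h.vv hu X Y
  have p := h.al0 hu
  rw [h.hR.smul, h.hR.smul2, h.hg.smul, h.hg.smul2, h.hg.smul2, h.hg.smul, hu.one]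
  push_cast
  field_simp
  linear_combination (a * conj a) * e

end Gen

variable {H : E n → Mat n} {z : E n} {al be : ℝ}

theorem sf_ext {A B : Mat n} (hA : A.IsHermitian) (hB : B.IsHermitian) {v : E n} {c : ℝ}
    (h : ∀ X, sf A X v = c * sf B X v) : A *ᵥ v = (c : ℂ) • B *ᵥ v := by
  funext i
  have a := congrArg conj (h (Pi.single i 1))
  rw [map_mul, conj_ofReal, ← (her_sf hA).cj, ← (her_sf hB).cj] at a
  simpa [sf, ← Pi.single_star] using a

/-- The first hypothesis of the local contradiction. -/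
theorem null_h1 (P : Pk (sf (H z)) (sf (-ricF H z)) (rm H z) al be) {u : E n}
    (hu : Nv (sf (H z)) (sf (-ricF H z)) (rm H z) al be u) (a : ℂ) (X Y : E n) :
    rm H z (a • u) (a • u) X Y = (rm H z u u u u).re *
      (((-1 / al : ℝ) : ℂ) * (star (a • u) ⬝ᵥ H z *ᵥ (a • u)) * (star Y ⬝ᵥ H z *ᵥ X) +
        (1 - ((-1 / al : ℝ) : ℂ)) * (star (a • u) ⬝ᵥ H z *ᵥ X) * (star Y ⬝ᵥ H z *ᵥ (a • u))) :=
  P.vv_smul hu a X Y

/-- The null vector is an eigenvector. -/
theorem null_eig (h : Loc H z) (P : Pk (sf (H z)) (sf (-ricF H z)) (rm H z) al be) {u : E n}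
    (hu : Nv (sf (H z)) (sf (-ricF H z)) (rm H z) al be u) :
    (-ricF H z) *ᵥ u = ((be / al * (rm H z u u u u).re : ℝ) : ℂ) • H z *ᵥ u :=
  sf_ext h.ric_herm.neg h.pos.1 fun X => by
    have e := P.eta_v hu X
    have p := P.al0 hu
    push_cast
    field_simp
    linear_combination e

/-- The second hypothesis of the local contradiction. -/
theorem null_h2 (h : Loc H z) (P : Pk (sf (H z)) (sf (-ricF H z)) (rm H z) al be) {u : E n}
    (hu : Nv (sf (H z)) (sf (-ricF H z)) (rm H z) al be u) (a : ℂ) :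
    ricF H z *ᵥ (a • u) =
      (-(((be / al : ℝ) : ℂ) * ((rm H z u u u u).re : ℝ) : ℂ)) • H z *ᵥ (a • u) := by
  have e := null_eig h P hu
  rw [Matrix.neg_mulVec, neg_eq_iff_eq_neg] at e
  rw [Matrix.mulVec_smul, Matrix.mulVec_smul, e, smul_comm, ← neg_smul, ofReal_mul]

/-- The Ricci form is non-positive at a point with a null vector of zero curvature. -/
theorem zero_psd (h : Loc H z) (P : Pk (sf (H z)) (sf (-ricF H z)) (rm H z) al be) {u : E n}
    (hu : Nv (sf (H z)) (sf (-ricF H z)) (rm H z) al be u) (h0 : (rm H z u u u u).re = 0) :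
    (-ricF H z).PosSemidef :=
  Matrix.PosSemidef.of_dotProduct_mulVec_nonneg h.ric_herm.neg fun X => by
    have a := P.eta_nn hu h0 X
    have b := P.he.im0 X
    exact Complex.le_def.2 ⟨a, b.symm⟩

/-- The inequality (*). -/
theorem zero_star (h : Loc H z) (P : Pk (sf (H z)) (sf (-ricF H z)) (rm H z) al be) {u : E n}
    (hu : Nv (sf (H z)) (sf (-ricF H z)) (rm H z) al be u) (h0 : (rm H z u u u u).re = 0)
    {ξ : Mat n} (hξ : ξ.PosSemidef) :
    0 ≤ (qx H ξ z).re + n * (2 * ((al - 1) / be) + al / be) *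
      (ξ * H z * ξ * -ricF H z).trace.re := by
  obtain ⟨w, a, h1, h2, h3⟩ := RB.R32.frame h.pos hξ
  have s : ∀ i, normSq (√(a i) : ℂ) = a i := fun i => by
    rw [normSq_ofReal, Real.mul_self_sqrt (h2 i)]
  have e : ∀ k l, ξ k l = ∑ i, ((√(a i) : ℂ) • w i) k * star (((√(a i) : ℂ) • w i) l) :=
    fun k l => (h3 k l).trans (sum_congr rfl fun i _ => by
      rw [← s i, Pi.smul_apply, Pi.smul_apply, smul_eq_mul, smul_eq_mul, star_mul', ← mul_conj]
      simp only [normSq_ofReal, Real.mul_self_sqrt (h2 i), starRingEnd_apply]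
      ring)
  have k := P.star_le hu h0 univ fun i => (√(a i) : ℂ) • w i
  have t : (ξ * H z * ξ * -ricF H z).trace.re = ∑ i, (sf (-ricF H z) ((√(a i) : ℂ) • w i)
      ((√(a i) : ℂ) • w i)).re * (sf (H z) ((√(a i) : ℂ) • w i) ((√(a i) : ℂ) • w i)).re := by
    rw [tr_sf2 e, re_sum]
    refine sum_congr rfl fun i _ => ?_
    rw [sum_eq_single i (fun j _ hj => ?_) (by simp), mul_re, P.hg.im0, mul_zero, sub_zero]
    rw [P.hg.smul, P.hg.smul2, show sf (H z) (w j) (w i) = 0 from (h1 i j).trans (if_neg hj.symm)]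
    simp
  have r : ∀ i j, (rm H z ((√(a i) : ℂ) • w i) ((√(a i) : ℂ) • w i) ((√(a j) : ℂ) • w j)
      ((√(a j) : ℂ) • w j)).re = a i * a j * (rm H z (w i) (w i) (w j) (w j)).re := fun i j => by
    rw [(P.hR.her _).sc2, P.hR.smul, P.hR.smul2, ← mul_assoc _ (conj _), mul_conj, s, s,
      re_ofReal_mul, re_ofReal_mul]
    ring
  simp only [r, card_univ, Fintype.card_fin] at k
  rw [RB.R32.qx_eq h3, t]
  linarith

end Pool.Agent.Lib.KR91
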