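import Pool.Agent.Lib.KR91.Null

/-! The three cases for the sign of the holomorphic sectional curvature at a null vector. -/

open Complex ComplexConjugate

set_option linter.unusedVariables false
set_option linter.unusedSectionVars false

noncomputable section

namespace Pool.Agent.Lib.KR91

variable {V : Type} [AddCommGroup V] [Module ℂ V]

namespace Pk

variable {g η : V → V → ℂ} {R : V → V → V → V → ℂ} {al be : ℝ} (h : Pk g η R al be)
  {v : V} (hv : Nv g η R al be v)
include h hv

theorem g_exp (c : ℂ) {y : V} (hy : g y v = 0) :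
    (g (c • v + y) (c • v + y)).re = normSq c + (g y y).re := by
  simp only [h.hg.add, h.hg.add2, h.hg.smul, h.hg.smul2, hy, h.hg.perp hy, hv.one, mul_zero,
    add_zero, zero_add, mul_one]
  simp [normSq_apply]

theorem eta_exp (c : ℂ) {y : V} (hy : g y v = 0) :
    (η (c • v + y) (c • v + y)).re = normSq c * (η v v).re + (η y y).re := by
  have e := h.eta_perp hv hy
  simp only [h.he.add, h.he.add2, h.he.smul, h.he.smul2, e, h.he.perp e, mul_zero,
    add_zero, zero_add]
  rw [h.he.real v]
  simp [normSq_apply]
  ring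

/-- The expansion of the tensor on two pairs of vectors. -/
theorem R_exp (c d : ℂ) {y z : V} (hy : g y v = 0) (hz : g z v = 0) :
    R (c • v + y) (c • v + y) (d • v + z) (d • v + z) =
      c * conj c * (d * conj d) * R v v v v + c * conj c * R v v z z + d * conj d * R v v y y +
      c * conj d * R v v z y + conj c * d * R v v y z +
      (conj c * conj d * R y v z v + conj (conj c * conj d * R y v z v)) + R y y z z := by
  have a1 : ∀ {x}, g x v = 0 → R x v v v = 0 := fun hx => h.a0 hv hx
  have a2 : ∀ {x}, g x v = 0 → R v x v v = 0 := fun hx => by rw [h.hR.cj, a1 hx, map_zero]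
  have a3 : ∀ {x}, g x v = 0 → R v v x v = 0 := fun hx => by rw [h.hR.sym, a1 hx]
  have a4 : ∀ {x}, g x v = 0 → R v v v x = 0 := fun hx => by rw [h.hR.sym2, a2 hx]
  have t2 : R y v z z = 0 := h.t0 hv hy hz hz
  have t1 : R v y z z = 0 := by rw [h.hR.cj, t2, map_zero]
  have t4 : R y y z v = 0 := by rw [h.hR.sym2, h.t0 hv hy hz hy]
  have t3 : R y y v z = 0 := by rw [h.hR.cj, t4, map_zero]
  simp only [h.hR.add, h.hR.add2, h.hR.add3, h.hR.add4, h.hR.smul, h.hR.smul2, h.hR.smul3,
    h.hR.smul4, a1 hy, a2 hy, a3 hz, a4 hz, t1, t2, t3, t4, map_mul, conj_conj]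
  rw [← h.hR.cj y v z v, h.hR.swap y y v v, h.hR.sym2 v y z v, h.hR.sym y v v z]
  ring

theorem alp : 0 < al := by linarith [h.al1]

theorem bep : 0 < be := by linarith [h.be1]

theorem vv_re {y : V} (hy : g y v = 0) :
    al * (R v v y y).re = -((R v v v v).re * (g y y).re) := by
  have := congrArg re (h.vv_diag hv hy)
  simp only [add_re, re_ofReal_mul, zero_re] at this
  linarith

/-- The expansion of the quartic form. -/
theorem dq_exp (c : ℂ) {y : V} (hy : g y v = 0) :
    dq g η R al be (c • v + y) = dq g η R al be y +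
      (normSq c * (be * (1 + 4 / al) * ((R v v v v).re * (g y y).re) + al * (η y y).re) -
        2 * be * (conj c * conj c * R y v y v).re) := by
  have a := h.vv_re hv hy
  have b := h.eta_vv hv
  have p := (h.alp hv).ne'
  have e : (R v v y y).re = -((R v v v v).re * (g y y).re) / al := by field_simp; linarith
  have f : (η v v).re = be * (R v v v v).re / al := by field_simp; linarith
  rw [dq, dq, h.g_exp hv c hy, h.eta_exp hv c hy, h.R_exp hv c c hy hy, mul_comm (conj c) c,
    mul_conj, h.hR.real v v, h.hR.real v y]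
  simp only [add_re, conj_re, ← ofReal_mul, ofReal_re]
  rw [e, f]
  field_simp
  ring

/-- The second variation is non-negative. -/
theorem sec (c : ℂ) {y : V} (hy : g y v = 0) :
    0 ≤ normSq c * (be * (1 + 4 / al) * ((R v v v v).re * (g y y).re) + al * (η y y).re) -
        2 * be * (conj c * conj c * R y v y v).re := by
  refine lim0 (b := dq g η R al be y) (c := 0) fun s hs => ?_
  obtain ⟨r, q⟩ : ∃ r : ℝ, r * r = s⁻¹ := ⟨_, Real.mul_self_sqrt (inv_pos.2 hs).le⟩
  have a := h.dq_nn (((r : ℂ) * c) • v + y)
  rw [h.dq_exp hv _ hy] at a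
  have e1 : normSq ((r : ℂ) * c) = s⁻¹ * normSq c := by rw [map_mul, normSq_ofReal, q]
  have e2 : (conj ((r : ℂ) * c) * conj ((r : ℂ) * c) * R y v y v).re =
      s⁻¹ * (conj c * conj c * R y v y v).re := by
    rw [← re_ofReal_mul, ← q, map_mul, conj_ofReal, ofReal_mul]
    congr 1
    ring
  rw [e1, e2] at a
  have := mul_nonneg hs.le a
  have e : ∀ A B C D : ℝ, s * (A + (s⁻¹ * B * C - 2 * be * (s⁻¹ * D))) =
      B * C - 2 * be * D + s * A + s ^ 2 * 0 := fun A B C D => by field_simp; ring
  rwa [e] at this

theorem dq_ge (c : ℂ) {y : V} (hy : g y v = 0) :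
    dq g η R al be y ≤ dq g η R al be (c • v + y) := by
  rw [h.dq_exp hv c hy]
  linarith [h.sec hv c hy]

theorem eta_ge {y : V} (hy : g y v = 0) :
    0 ≤ be * (1 + 4 / al) * ((R v v v v).re * (g y y).re) + al * (η y y).re := by
  have a := h.sec hv 1 hy
  have b := h.sec hv I hy
  simp at a b
  linarith

theorem hsc_lo {y : V} (hy : g y v = 0) :
    (R v v v v).re * (g y y).re ^ 2 - dq g η R al be y ≤ (R y y y y).re := by
  have a := h.lo y v hy
  rw [h.hR.swap y y v v, h.vv_re hv hy, hv.one, one_re] at a
  linarith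

theorem hsc_up {y : V} (hy : g y v = 0) :
    (R y y y y).re ≤ (R v v v v).re * (g y y).re ^ 2 + (al - 1) / be * dq g η R al be y := by
  have a := h.up y v hy
  rw [h.hR.swap y y v v, h.vv_re hv hy, hv.one, one_re] at a
  linarith

/-- The case of non-negative curvature. -/
theorem plus (hH : 0 ≤ (R v v v v).re) (X : V) :
    (R v v v v).re * (g X X).re ^ 2 / 24 ≤ dq g η R (al + al / (12 * be)) be X := by
  obtain ⟨y, hy, e⟩ := h.dec hv X
  have pa := h.alp hv
  have pb := h.bep hv
  have e0 : dq g η R (al + al / (12 * be)) be X =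
      dq g η R al be X + al * (η X X).re / be * (g X X).re / 12 := by
    rw [dq, dq]; field_simp; ring
  have d1 := h.dq_ge hv (g X v) hy
  have d2 := h.dq_nn y
  have g1 := h.g_exp hv (g X v) hy
  have g2 := h.eta_exp hv (g X v) hy
  rw [← e] at d1 g1 g2
  have g3 : al * (η X X).re / be = normSq (g X v) * (R v v v v).re + al * (η y y).re / be := by
    rw [g2, mul_add, mul_left_comm, h.eta_vv hv]; field_simp
  have c0 := normSq_nonneg (g X v)
  have x0 := h.nn y
  have s1 : -(5 * ((R v v v v).re * (g y y).re)) ≤ al * (η y y).re / be := by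
    have a := h.eta_ge hv hy
    have b : 4 / al ≤ 4 := by rw [div_le_iff₀ pa]; linarith [h.al1]
    have c := mul_le_mul_of_nonneg_right b (mul_nonneg pb.le (mul_nonneg hH x0))
    rw [le_div_iff₀ pb]
    linarith
  have s2 : (R v v v v).re * (g y y).re ^ 2 - dq g η R al be y ≤
      al * (η y y).re / be * (g y y).re := by
    have a := h.hsc_lo hv hy
    have b : al * (η y y).re / be * (g y y).re = dq g η R al be y / be + (R y y y y).re := by
      rw [dq]; field_simp; ring
    have c := div_nonneg d2 pb.le
    linarith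
  rw [e0, g3, g1]
  generalize al * (η y y).re / be = w at *
  generalize normSq (g X v) = C at *
  generalize (g y y).re = x at *
  generalize (R v v v v).re = H at *
  generalize dq g η R al be y = D at *
  generalize dq g η R al be X = D' at *
  rcases le_or_gt (12 * x) (C + x) with k | k
  · have : (C + x) * H / 2 ≤ C * H + w := by nlinarith [mul_nonneg hH (sub_nonneg.2 k)]
    nlinarith [mul_le_mul_of_nonneg_right this (add_nonneg c0 x0)]
  · have x1 : 0 < x := by linarith
    refine le_of_mul_le_mul_right ?_ x1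
    have t1 := mul_le_mul_of_nonneg_right s2 (add_nonneg c0 x0)
    have t2 := mul_le_mul_of_nonneg_right d1 x0
    have t3 := mul_le_mul_of_nonneg_left k.le d2
    have t4 : 0 ≤ H * (C + x) ^ 2 * x := by positivity
    nlinarith

/-- The case of negative curvature: the form is positive on the complement. -/
theorem minus_eta {y : V} (hy : g y v = 0) (hH : (R v v v v).re ≤ 0) :
    be * (-(R v v v v).re) * (g y y).re ≤ al * (η y y).re := by
  have a := h.eta_ge hv hy
  have b : 0 ≤ be * (4 / al) * (-(R v v v v).re * (g y y).re) :=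
    mul_nonneg (mul_pos (h.bep hv) (div_pos four_pos (h.alp hv))).le
      (mul_nonneg (by linarith) (h.nn y))
  linarith

/-- The case of negative curvature: a lower bound for the quartic form. -/
theorem minus (hH : (R v v v v).re ≤ 0) (X : V) :
    2 * be / al * (-(R v v v v).re) * ((g X X).re - normSq (g X v)) ^ 2 ≤ dq g η R al be X := by
  obtain ⟨y, hy, e⟩ := h.dec hv X
  have pa := h.alp hv
  have pb := h.bep hv
  have d1 := h.dq_ge hv (g X v) hy
  have g1 := h.g_exp hv (g X v) hy
  rw [← e] at d1 g1
  refine le_trans ?_ d1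
  rw [g1, add_sub_cancel_left]
  have a := mul_le_mul_of_nonneg_right (h.minus_eta hv hy hH) (h.nn y)
  have b := mul_le_mul_of_nonneg_left (h.hsc_up hv hy) pb.le
  have c : be * ((al - 1) / be * dq g η R al be y) = (al - 1) * dq g η R al be y := by field_simp
  rw [mul_add, c] at b
  have d : dq g η R al be y = al * (η y y).re * (g y y).re - be * (R y y y y).re := rfl
  rw [div_mul_eq_mul_div, div_mul_eq_mul_div, div_le_iff₀ pa]
  nlinarith

end Pk

end Pool.Agent.Lib.KR91
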