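import Mathlib

/-! Pointwise algebra of a curvature tensor of Kähler type together with two Hermitian forms. -/

open Complex ComplexConjugate

set_option linter.unusedVariables false
set_option linter.unusedSectionVars false

noncomputable section

namespace Pool.Agent.Lib.KR91

variable {V : Type} [AddCommGroup V] [Module ℂ V]

/-- Hermitian forms. -/
structure Her (g : V → V → ℂ) : Prop where
  add : ∀ x y z, g (x + y) z = g x z + g y z
  smul : ∀ (c : ℂ) x z, g (c • x) z = c * g x z
  cj : ∀ x y, g y x = conj (g x y)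

/-- Tensors with the symmetries of the curvature of a Kähler metric. -/
structure Kt (R : V → V → V → V → ℂ) : Prop where
  add : ∀ a a' b v w, R (a + a') b v w = R a b v w + R a' b v w
  smul : ∀ (c : ℂ) a b v w, R (c • a) b v w = c * R a b v w
  sym : ∀ a b v w, R a b v w = R v b a w
  cj : ∀ a b v w, R b a w v = conj (R a b v w)

namespace Her

variable {g : V → V → ℂ} (h : Her g)
include h

theorem add2 (x y z : V) : g z (x + y) = g z x + g z y := by
  rw [h.cj (x + y) z, h.add, map_add, ← h.cj, ← h.cj]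

theorem smul2 (c : ℂ) (x z : V) : g z (c • x) = conj c * g z x := by
  rw [h.cj (c • x) z, h.smul, map_mul, ← h.cj]

theorem real (x : V) : g x x = ((g x x).re : ℂ) := by
  have := h.cj x x
  exact (conj_eq_iff_re.1 this.symm).symm

theorem im0 (x : V) : (g x x).im = 0 := by rw [h.real x]; simp

theorem zero1 (z : V) : g 0 z = 0 := by simpa using h.smul 0 0 z

theorem zero2 (z : V) : g z 0 = 0 := by simpa using h.smul2 0 0 z

theorem perp {x y : V} (e : g x y = 0) : g y x = 0 := by rw [h.cj x y, e, map_zero]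

theorem sum1 {ι : Type} (s : Finset ι) (f : ι → V) (z : V) :
    g (∑ i ∈ s, f i) z = ∑ i ∈ s, g (f i) z := by
  classical
  induction s using Finset.induction_on with
  | empty => simp [h.zero1]
  | insert i s hi ih => rw [Finset.sum_insert hi, Finset.sum_insert hi, h.add, ih]

theorem der (a a' b b' : V) :
    HasDerivAt (fun t : ℝ => g (a + (t : ℂ) • a') (b + (t : ℂ) • b')) (g a' b + g a b') 0 := by
  have e : (fun t : ℝ => g (a + (t : ℂ) • a') (b + (t : ℂ) • b')) =
      fun t : ℝ => g a b + (t : ℂ) * ((g a' b + g a b') + (t : ℂ) * g a' b') := by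
    funext t
    simp only [h.add, h.add2, h.smul, h.smul2, conj_ofReal]
    ring
  have d : HasDerivAt (fun t : ℝ => (t : ℂ)) 1 0 := ofRealCLM.hasDerivAt
  rw [e]
  have := (d.mul ((d.mul_const (g a' b')).const_add (g a' b + g a b'))).const_add (g a b)
  simpa using this

end Her

namespace Kt

variable {R : V → V → V → V → ℂ} (h : Kt R)
include h

theorem sym2 (a b v w : V) : R a b v w = R a w v b := by
  rw [h.cj b a w v, h.sym b a w v, ← h.cj]

theorem swap (a b v w : V) : R a b v w = R v w a b := by rw [h.sym, h.sym2]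

theorem add2 (a b b' v w : V) : R a (b + b') v w = R a b v w + R a b' v w := by
  rw [h.cj (b + b') a w v, h.add, map_add, ← h.cj, ← h.cj]

theorem smul2 (c : ℂ) (a b v w : V) : R a (c • b) v w = conj c * R a b v w := by
  rw [h.cj (c • b) a w v, h.smul, map_mul, ← h.cj]

theorem add3 (a b v v' w : V) : R a b (v + v') w = R a b v w + R a b v' w := by
  rw [h.sym, h.add, h.sym v, h.sym v']

theorem smul3 (c : ℂ) (a b v w : V) : R a b (c • v) w = c * R a b v w := by
  rw [h.sym, h.smul, h.sym v]

theorem add4 (a b v w w' : V) : R a b v (w + w') = R a b v w + R a b v w' := by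
  rw [h.sym2, h.add2, h.sym2 a w, h.sym2 a w']

theorem smul4 (c : ℂ) (a b v w : V) : R a b v (c • w) = conj c * R a b v w := by
  rw [h.sym2, h.smul2, h.sym2 a w]

theorem sum1 {ι : Type} (s : Finset ι) (f : ι → V) (b v w : V) :
    R (∑ i ∈ s, f i) b v w = ∑ i ∈ s, R (f i) b v w := by
  classical
  induction s using Finset.induction_on with
  | empty => simpa using h.smul 0 0 b v w
  | insert i s hi ih => rw [Finset.sum_insert hi, Finset.sum_insert hi, h.add, ih]

theorem sum3 {ι : Type} (s : Finset ι) (f : ι → V) (a b w : V) :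
    R a b (∑ i ∈ s, f i) w = ∑ i ∈ s, R a b (f i) w := by
  rw [h.sym, h.sum1]
  exact Finset.sum_congr rfl fun i _ => h.sym _ _ _ _

theorem her (a : V) : Her (R a a) :=
  ⟨fun x y z => h.add3 _ _ _ _ _, fun c x z => h.smul3 _ _ _ _ _, fun x y => h.cj _ _ _ _⟩

theorem real (a b : V) : R a a b b = ((R a a b b).re : ℂ) := (h.her a).real b

theorem der (a a' b b' c c' d d' : V) :
    HasDerivAt (fun t : ℝ => R (a + (t : ℂ) • a') (b + (t : ℂ) • b') (c + (t : ℂ) • c')
      (d + (t : ℂ) • d')) (R a' b c d + R a b' c d + R a b c' d + R a b c d') 0 := by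
  have e : (fun t : ℝ => R (a + (t : ℂ) • a') (b + (t : ℂ) • b') (c + (t : ℂ) • c')
      (d + (t : ℂ) • d')) = fun t : ℝ => R a b c d + (t : ℂ) *
        ((R a' b c d + R a b' c d + R a b c' d + R a b c d') + (t : ℂ) *
          ((R a' b' c d + R a' b c' d + R a' b c d' + R a b' c' d + R a b' c d' + R a b c' d') +
            (t : ℂ) * ((R a b' c' d' + R a' b c' d' + R a' b' c d' + R a' b' c' d) +
              (t : ℂ) * R a' b' c' d'))) := by
    funext t
    simp only [h.add, h.add2, h.add3, h.add4, h.smul, h.smul2, h.smul3, h.smul4, conj_ofReal]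
    ring
  have d0 : HasDerivAt (fun t : ℝ => (t : ℂ)) 1 0 := ofRealCLM.hasDerivAt
  rw [e]
  have := (d0.mul ((d0.mul ((d0.mul ((d0.mul_const (R a' b' c' d')).const_add
    (R a b' c' d' + R a' b c' d' + R a' b' c d' + R a' b' c' d))).const_add
    (R a' b' c d + R a' b c' d + R a' b c d' + R a b' c' d + R a b' c d' + R a b c' d'))).const_add
    (R a' b c d + R a b' c d + R a b c' d + R a b c d'))).const_add (R a b c d)
  simpa using this

end Kt

/-- A function with non-negative real part which vanishes at zero has imaginary derivative. -/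
theorem min_der {f : ℝ → ℂ} {c : ℂ} (hf : HasDerivAt f c 0) (h0 : (f 0).re = 0)
    (hp : ∀ t, 0 ≤ (f t).re) : c.re = 0 := by
  have d : HasDerivAt (fun t => (f t).re) c.re 0 := reCLM.hasFDerivAt.comp_hasDerivAt 0 hf
  exact IsLocalMin.hasDerivAt_eq_zero (Filter.Eventually.of_forall fun t => by
    simpa [h0] using hp t) d

/-- Polarisation on the orthogonal complement of a vector. -/
theorem polar {g φ : V → V → ℂ} (hg : Her g) (v : V)
    (a1 : ∀ x y z, φ (x + y) z = φ x z + φ y z) (a2 : ∀ x y z, φ z (x + y) = φ z x + φ z y)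
    (s1 : ∀ (c : ℂ) x z, φ (c • x) z = c * φ x z)
    (s2 : ∀ (c : ℂ) x z, φ z (c • x) = conj c * φ z x)
    (h0 : ∀ w, g w v = 0 → φ w w = 0) {w w' : V} (hw : g w v = 0) (hw' : g w' v = 0) :
    φ w w' = 0 := by
  have e1 := h0 (w + w') (by rw [hg.add, hw, hw', add_zero])
  have e2 := h0 (w + I • w') (by rw [hg.add, hg.smul, hw, hw', mul_zero, add_zero])
  simp only [a1, a2, s1, s2, h0 w hw, h0 w' hw', conj_I] at e1 e2
  have : (2 * I) * φ w w' = 0 := by linear_combination I * e1 - e2
  simpa using this

/-- A sequence of inequalities in a small parameter. -/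
theorem lim0 {a b c : ℝ} (h : ∀ s : ℝ, 0 < s → 0 ≤ a + s * b + s ^ 2 * c) : 0 ≤ a := by
  have t : Filter.Tendsto (fun s : ℝ => a + s * b + s ^ 2 * c) (nhdsWithin 0 (Set.Ioi 0))
      (nhds a) := by
    have : Continuous fun s : ℝ => a + s * b + s ^ 2 * c := by fun_prop
    simpa using (this.tendsto 0).mono_left nhdsWithin_le_nhds
  exact ge_of_tendsto t (eventually_nhdsWithin_of_forall h)

end Pool.Agent.Lib.KR91
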