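import Pool.Agent.Lib.KR91.Zero
import Pool.Agent.Lib.HS76.Roy

/-! Averaging over frames, and a twisted form of the inequality of Royden. -/

open Complex ComplexConjugate Finset

set_option linter.unusedVariables false
set_option linter.unusedSectionVars false

noncomputable section

namespace Pool.Agent.Lib.KR91

/-- Some subset of given size has at least the average sum. -/
theorem sub_avg {ι : Type} [DecidableEq ι] (x : ι → ℝ) (k : ℕ) : ∀ (d : ℕ) (T : Finset ι),
    T.card = k + d → ∃ S ⊆ T, S.card = k ∧ k * ∑ i ∈ T, x i ≤ (k + d) * ∑ i ∈ S, x i := by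
  intro d
  induction d with
  | zero => exact fun T hT => ⟨T, Subset.rfl, hT, by simp⟩
  | succ d ih =>
    intro T hT
    rcases Nat.eq_zero_or_pos k with rfl | hk
    · exact ⟨∅, empty_subset _, rfl, by simp⟩
    obtain ⟨i, hi, hm⟩ := exists_min_image T x (card_pos.1 (by omega))
    obtain ⟨S, h1, h2, h3⟩ := ih (T.erase i) (by rw [card_erase_of_mem hi]; omega)
    refine ⟨S, h1.trans (erase_subset _ _), h2, ?_⟩
    have e1 := add_sum_erase T x hi
    have e2 : (T.card : ℝ) * x i ≤ ∑ j ∈ T, x j := by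
      simpa using card_nsmul_le_sum T x (x i) hm
    have p : (0 : ℝ) < k + d := by positivity
    have k0 : (0 : ℝ) ≤ k := Nat.cast_nonneg k
    rw [hT] at e2
    push_cast at e2 ⊢
    refine le_of_mul_le_mul_left ?_ p
    have e3 := mul_le_mul_of_nonneg_left h3 (by linarith : (0 : ℝ) ≤ k + d + 1)
    have e4 := mul_le_mul_of_nonneg_left e2 k0
    rw [← e1] at e4 ⊢
    nlinarith

variable {V : Type} [AddCommGroup V] [Module ℂ V]

/-- Unitary families. -/
def Uni (g : V → V → ℂ) {ι : Type} [DecidableEq ι] (e : ι → V) : Prop :=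
  ∀ i j, g (e i) (e j) = if i = j then 1 else 0

variable {g η : V → V → ℂ} {R : V → V → V → V → ℂ} {n K : ℕ}

/-- From frames to subsets of a basis. -/
theorem sub_of_frame
    (hK : ∀ (e : Fin K → V) (i : Fin K), Uni g e → ∑ j, (R (e i) (e i) (e j) (e j)).re ≤ 0)
    (e : Fin n → V) (he : Uni g e) (i : Fin n) (S : Finset (Fin n)) (hi : i ∈ S)
    (hS : S.card = K) : ∑ j ∈ S, (R (e i) (e i) (e j) (e j)).re ≤ 0 := by
  have q := S.equivFinOfCardEq hS
  have := hK (fun a => e (q.symm a)) (q ⟨i, hi⟩) fun a b => by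
    rw [he]
    simp [Subtype.ext_iff.symm]
  rw [q.symm_apply_apply, Equiv.sum_comp q.symm fun a : S => (R (e i) (e i) (e a) (e a)).re] at this
  rwa [← sum_coe_sort]

/-- The two averaged inequalities for an orthonormal pair. -/
theorem avg_pair (h2 : 2 ≤ K) (hn : K + 1 ≤ n) (x : Fin n → ℝ) {i j : Fin n} (hij : i ≠ j)
    (hS : ∀ S : Finset (Fin n), i ∈ S → S.card = K → ∑ a ∈ S, x a ≤ 0) :
    ((n : ℝ) - K) * (x i + x j) + ((K : ℝ) - 2) * ∑ a, x a ≤ 0 ∧
      ((n : ℝ) - K - 1) * x i + ((K : ℝ) - 1) * ∑ a, x a - ((K : ℝ) - 1) * x j ≤ 0 := by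
  have hj : j ∈ univ.erase i := by simp [hij.symm]
  have hc : ((univ.erase i).erase j).card = n - 2 := by
    rw [card_erase_of_mem hj, card_erase_of_mem (mem_univ i)]; simp; omega
  have e0 : ∑ a, x a = x i + (x j + ∑ a ∈ (univ.erase i).erase j, x a) := by
    rw [add_sum_erase _ x hj, add_sum_erase _ x (mem_univ i)]
  obtain ⟨a, rfl⟩ : ∃ a, K = a + 2 := ⟨K - 2, by omega⟩
  obtain ⟨b, rfl⟩ : ∃ b, n = a + b + 3 := ⟨n - a - 3, by omega⟩
  have ni : ∀ S ⊆ (univ.erase i).erase j, i ∉ S ∧ j ∉ S := fun S h =>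
    ⟨fun t => by simpa using h t, fun t => by simpa using h t⟩
  have a0 : (0 : ℝ) ≤ a := Nat.cast_nonneg a
  have b0 : (0 : ℝ) ≤ b := Nat.cast_nonneg b
  rw [e0]
  constructor
  · obtain ⟨S, s1, s2, s3⟩ := sub_avg x a (b + 1) _ (hc.trans (by omega))
    have i1 : i ∉ insert j S := by simp [hij, (ni S s1).1]
    have := hS (insert i (insert j S)) (mem_insert_self _ _)
      (by rw [card_insert_of_notMem i1, card_insert_of_notMem (ni S s1).2, s2])
    rw [sum_insert i1, sum_insert (ni S s1).2] at this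
    have t := mul_le_mul_of_nonneg_left this (by linarith : (0 : ℝ) ≤ a + (b + 1))
    push_cast at s3 ⊢
    linarith
  · obtain ⟨S, s1, s2, s3⟩ := sub_avg x (a + 1) b _ (hc.trans (by omega))
    have := hS (insert i S) (mem_insert_self _ _) (by rw [card_insert_of_notMem (ni S s1).1, s2])
    rw [sum_insert (ni S s1).1] at this
    have t := mul_le_mul_of_nonneg_left this (by linarith : (0 : ℝ) ≤ a + 1 + b)
    push_cast at s3 ⊢
    linarith

theorem Her.unit (hg : Her g) (pos : ∀ x, x ≠ 0 → 0 < (g x x).re) (X : V) :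
    X = 0 ∨ ∃ (r : ℝ) (v : V), g v v = 1 ∧ X = (r : ℂ) • v := by
  by_cases e : X = 0
  · exact Or.inl e
  have p := Real.sqrt_pos.2 (pos X e)
  have q : ((√(g X X).re : ℝ) : ℂ) ≠ 0 := by exact_mod_cast p.ne'
  refine Or.inr ⟨√(g X X).re, ((√(g X X).re : ℝ) : ℂ)⁻¹ • X, ?_, by rw [smul_inv_smul₀ q]⟩
  rw [hg.smul, hg.smul2, map_inv₀, conj_ofReal, ← mul_assoc, ← mul_inv, ← ofReal_mul,
    Real.mul_self_sqrt (pos X e).le, ← hg.real, inv_mul_cancel₀]
  rw [hg.real]
  exact_mod_cast (pos X e).ne'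

/-- The averaged inequalities. -/
theorem pk_of (hg : Her g) (pos : ∀ x, x ≠ 0 → 0 < (g x x).re) (he : Her η) (hR : Kt R)
    (h2 : 2 ≤ K) (hn : K + 1 ≤ n) (three : ∀ x y, ∃ w, w ≠ 0 ∧ g w x = 0 ∧ g w y = 0)
    (ext : ∀ v w, g v v = 1 → g w w = 1 → g v w = 0 →
      ∃ (e : Fin n → V) (i j : Fin n), i ≠ j ∧ e i = v ∧ e j = w ∧ Uni g e)
    (trc : ∀ e : Fin n → V, Uni g e → ∀ x, (η x x).re = -∑ i, (R x x (e i) (e i)).re)
    (hK : ∀ e : Fin n → V, Uni g e → ∀ (i : Fin n) (S : Finset (Fin n)), i ∈ S → S.card = K →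
      ∑ j ∈ S, (R (e i) (e i) (e j) (e j)).re ≤ 0) :
    Pk g η R ((K : ℝ) - 1) ((n : ℝ) - K) := by
  have a1 : (1 : ℝ) ≤ (K : ℝ) - 1 := by
    have : (2 : ℝ) ≤ K := by exact_mod_cast h2
    linarith
  have b1 : (1 : ℝ) ≤ (n : ℝ) - K := by
    have : (K : ℝ) + 1 ≤ n := by exact_mod_cast hn
    linarith
  have key : ∀ X W, g X W = 0 →
      -(dq g η R ((K : ℝ) - 1) ((n : ℝ) - K) X * (g W W).re) ≤
        ((K : ℝ) - 1) * (R X X W W).re * (g X X).re + (R X X X X).re * (g W W).re ∧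
      ((K : ℝ) - 1) * (R X X W W).re * (g X X).re + (R X X X X).re * (g W W).re ≤
        ((K : ℝ) - 1 - 1) / ((n : ℝ) - K) *
          (dq g η R ((K : ℝ) - 1) ((n : ℝ) - K) X * (g W W).re) := by
    intro X W h0
    rcases hg.unit pos X with rfl | ⟨r, v, hv, rfl⟩
    · simp [dq, hg.zero1, (hR.her 0).zero1]
    rcases hg.unit pos W with rfl | ⟨s, w, hw, rfl⟩
    · simp [hg.zero1, (hR.her _).zero1]
    simp only [dq, hg.smul, hg.smul2, he.smul, he.smul2, hR.smul, hR.smul2, hR.smul3, hR.smul4,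
      conj_ofReal, re_ofReal_mul, hv, hw, one_re] at h0 ⊢
    by_cases hr : r = 0
    · simp [hr]
    by_cases hs : s = 0
    · simp [hs]
    have hvw : g v w = 0 := by simpa [hr, hs] using h0
    obtain ⟨e, i, j, hij, rfl, rfl, hu⟩ := ext v w hv hw hvw
    obtain ⟨p1, p2⟩ := avg_pair h2 hn (fun a => (R (e i) (e i) (e a) (e a)).re) hij (hK e hu i)
    rw [trc e hu]
    have p : 0 ≤ r ^ 4 * s ^ 2 := by positivity
    have q1 := mul_le_mul_of_nonneg_left p1 p
    have q2 := mul_le_mul_of_nonneg_left p2 p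
    refine ⟨by linarith, ?_⟩
    rw [div_mul_eq_mul_div, le_div_iff₀ (by linarith)]
    have q3 := mul_le_mul_of_nonneg_left q1 (by linarith : (0 : ℝ) ≤ (K : ℝ) - 1)
    linarith
  exact ⟨hg, pos, he, hR, a1, b1, three, fun X W h => (key X W h).1, fun X W h => (key X W h).2⟩

/-- The twisted inequality of Royden. -/
theorem royden_tw {p : V → V → ℂ} (hg : Her g) (he : Her η) (hR : Kt R) (hp : Her p) {a b c : ℝ}
    (hc : 0 ≤ c) (h : ∀ X, c * (p X X).re ^ 2 ≤ dq g η R a b X) {ι : Type} [Fintype ι]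
    (w : ι → V) : c * (∑ i, (p (w i) (w i)).re) ^ 2 ≤
      a * ((∑ i, (η (w i) (w i)).re) * (∑ i, (g (w i) (w i)).re) +
        ∑ i, ∑ j, (η (w i) (w j) * g (w j) (w i)).re) -
      2 * b * ∑ i, ∑ j, (R (w i) (w i) (w j) (w j)).re := by
  have k : HS76.K4 fun x y v u => (4 * b : ℝ) * R x y v u -
      (a : ℝ) * (η x y * g v u + η v u * g x y + η x u * g v y + η v y * g x u) +
      (2 * c : ℝ) * (p x y * p v u + p x u * p v y) :=
    ⟨fun x x' y v u => by simp only [hg.add, he.add, hR.add, hp.add]; ring,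
     fun t x y v u => by simp only [hg.smul, he.smul, hR.smul, hp.smul]; ring,
     fun x y y' v u => by simp only [hg.add2, he.add2, hR.add2, hp.add2]; ring,
     fun t x y v u => by simp only [hg.smul2, he.smul2, hR.smul2, hp.smul2, star_def]; ring,
     fun x y v u => by rw [hR.sym x y v u]; ring,
     fun x y v u => by rw [hR.sym2 x y v u]; ring⟩
  have d (X : V) : ((4 * b : ℝ) * R X X X X -
      (a : ℝ) * (η X X * g X X + η X X * g X X + η X X * g X X + η X X * g X X) +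
      (2 * c : ℝ) * (p X X * p X X + p X X * p X X) : ℂ).re ≤ 0 := by
    have := h X
    rw [dq] at this
    simp only [add_re, sub_re, re_ofReal_mul, mul_re (η X X), mul_re (p X X), hg.im0, hp.im0]
    linarith
  have r := (k.royden d w).trans (sum_nonpos fun i _ => d _)
  have e1 (i j : ι) : (η (w j) (w i) * g (w i) (w j)).re = (η (w i) (w j) * g (w j) (w i)).re := by
    rw [he.cj (w i) (w j), hg.cj (w j) (w i), ← map_mul, conj_re]
  have e2 (i j : ι) : (p (w i) (w j) * p (w j) (w i)).re = normSq (p (w i) (w j)) := by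
    rw [hp.cj (w i) (w j), mul_conj, ofReal_re]
  have e3 (f k : V → V → ℂ) (hk : Her k) (x y : V) : (f x x * k y y).re =
      (f x x).re * (k y y).re := by rw [mul_re, hk.im0, mul_zero, sub_zero]
  simp only [re_sum, add_re, sub_re, re_ofReal_mul, e2, e3 _ _ hg, e3 _ _ hp] at r
  simp only [sum_add_distrib, sum_sub_distrib, ← mul_sum, ← sum_mul] at r
  have e4 : ∑ i, ∑ j, (η (w j) (w i) * g (w i) (w j)).re =
      ∑ i, ∑ j, (η (w i) (w j) * g (w j) (w i)).re := sum_comm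
  have e5 : 0 ≤ c * ∑ i, ∑ j, normSq (p (w i) (w j)) :=
    mul_nonneg hc (sum_nonneg fun i _ => sum_nonneg fun j _ => normSq_nonneg _)
  rw [e4] at r
  linarith

end Pool.Agent.Lib.KR91
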