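import Pool.Agent.Lib.KR91.Alg

/-! The structure of the tensor at a null vector. -/

open Complex ComplexConjugate

set_option linter.unusedVariables false
set_option linter.unusedSectionVars false

noncomputable section

namespace Pool.Agent.Lib.KR91

variable {V : Type} [AddCommGroup V] [Module ℂ V]

/-- The quartic form. -/
def dq (g η : V → V → ℂ) (R : V → V → V → V → ℂ) (al be : ℝ) (X : V) : ℝ :=
  al * (η X X).re * (g X X).re - be * (R X X X X).re

/-- The standing hypotheses. -/
structure Pk (g η : V → V → ℂ) (R : V → V → V → V → ℂ) (al be : ℝ) : Prop where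
  hg : Her g
  pos : ∀ x, x ≠ 0 → 0 < (g x x).re
  he : Her η
  hR : Kt R
  al1 : 1 ≤ al
  be1 : 1 ≤ be
  three : ∀ x y, ∃ w, w ≠ 0 ∧ g w x = 0 ∧ g w y = 0
  lo : ∀ X W, g X W = 0 → -(dq g η R al be X * (g W W).re) ≤
    al * (R X X W W).re * (g X X).re + (R X X X X).re * (g W W).re
  up : ∀ X W, g X W = 0 → al * (R X X W W).re * (g X X).re + (R X X X X).re * (g W W).re ≤
    (al - 1) / be * (dq g η R al be X * (g W W).re)

/-- A unit null vector. -/
structure Nv (g η : V → V → ℂ) (R : V → V → V → V → ℂ) (al be : ℝ) (v : V) : Prop where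
  one : g v v = 1
  null : dq g η R al be v = 0

namespace Pk

variable {g η : V → V → ℂ} {R : V → V → V → V → ℂ} {al be : ℝ} (h : Pk g η R al be)
include h

theorem nn (x : V) : 0 ≤ (g x x).re := by
  by_cases e : x = 0
  · rw [e, h.hg.zero1]; simp
  · exact (h.pos x e).le

theorem c0 : 0 ≤ (al - 1) / be := div_nonneg (by linarith [h.al1]) (by linarith [h.be1])

theorem dq_nn (X : V) : 0 ≤ dq g η R al be X := by
  obtain ⟨w, w0, w1, -⟩ := h.three X X
  have a := (h.lo X w (h.hg.perp w1)).trans (h.up X w (h.hg.perp w1))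
  have p := h.pos w w0
  have c := h.c0
  by_contra hn
  have : dq g η R al be X * (g w w).re < 0 := mul_neg_of_neg_of_pos (not_le.1 hn) p
  nlinarith

theorem dq_re (X : V) : dq g η R al be X =
    ((al : ℂ) * (η X X * g X X) - (be : ℂ) * R X X X X).re := by
  simp [dq, h.hg.im0, h.he.im0, mul_assoc]

theorem mid_re (X W : V) : al * (R X X W W).re * (g X X).re + (R X X X X).re * (g W W).re =
    ((al : ℂ) * (R X X W W * g X X) + R X X X X * g W W).re := by
  simp [h.hg.im0, (h.hR.her X).im0, mul_assoc]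

variable {v : V} (hv : Nv g η R al be v)
include hv

theorem vv_diag {w : V} (hw : g w v = 0) :
    (al : ℂ) * R v v w w + (R v v v v).re * g w w = 0 := by
  have a := h.lo v w (h.hg.perp hw)
  have b := h.up v w (h.hg.perp hw)
  rw [hv.null, hv.one] at a b
  have e : al * (R v v w w).re + (R v v v v).re * (g w w).re = 0 := by
    simp only [one_re] at a b
    linarith
  rw [h.hR.real v w, h.hg.real w]
  exact_mod_cast e

theorem vv_perp {w w' : V} (hw : g w v = 0) (hw' : g w' v = 0) :
    (al : ℂ) * R v v w w' + (R v v v v).re * g w w' = 0 := by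
  refine polar (φ := fun w w' => (al : ℂ) * R v v w w' + (R v v v v).re * g w w') h.hg v
    (fun x y z => ?_) (fun x y z => ?_) (fun c x z => ?_) (fun c x z => ?_)
    (fun w hw => h.vv_diag hv hw) hw hw'
  · rw [h.hR.add3, h.hg.add]; ring
  · rw [h.hR.add4, h.hg.add2]; ring
  · rw [h.hR.smul3, h.hg.smul]; ring
  · rw [h.hR.smul4, h.hg.smul2]; ring

theorem eta_vv : al * (η v v).re = be * (R v v v v).re := by
  have := hv.null
  rw [dq, hv.one] at this
  simp only [one_re] at this
  linarith

/-- The derivative of the quartic form at the null vector. -/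
theorem dq_der {z : V} (hz : g z v = 0) :
    HasDerivAt (fun t : ℝ => (al : ℂ) * (η (v + (t : ℂ) • z) (v + (t : ℂ) • z) *
      g (v + (t : ℂ) • z) (v + (t : ℂ) • z)) - (be : ℂ) * R (v + (t : ℂ) • z) (v + (t : ℂ) • z)
        (v + (t : ℂ) • z) (v + (t : ℂ) • z))
      ((al : ℂ) * (η z v + conj (η z v)) - (be : ℂ) * (2 * (R z v v v + conj (R z v v v)))) 0 := by
  have := (((h.he.der v z v z).mul (h.hg.der v z v z)).const_mul (al : ℂ)).sub
    ((h.hR.der v z v z v z v z).const_mul (be : ℂ))
  refine this.congr_deriv ?_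
  rw [hz, h.hg.perp hz, h.he.cj z v, h.hR.cj z v v v, h.hR.sym v v z v, h.hR.sym2 v v v z,
    h.hR.cj z v v v]
  simp only [ofReal_zero, zero_smul, add_zero, hv.one]
  ring

theorem dq_var_re {z : V} (hz : g z v = 0) :
    ((al : ℂ) * (η z v + conj (η z v)) - (be : ℂ) * (2 * (R z v v v + conj (R z v v v)))).re = 0 :=
  min_der (h.dq_der hv hz) (by simpa [← h.dq_re] using hv.null) fun t => by
    rw [← h.dq_re]; exact h.dq_nn _

theorem dq_var {z : V} (hz : g z v = 0) : (al : ℂ) * η z v = 2 * be * R z v v v := by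
  have a := h.dq_var_re hv hz
  have b := h.dq_var_re hv (z := I • z) (by rw [h.hg.smul, hz, mul_zero])
  rw [h.he.smul, h.hR.smul] at b
  apply Complex.ext <;> simp at a b ⊢ <;> linarith

theorem mid_var_re {z w : V} (hz : g z v = 0) (hw : g w v = 0) :
    ((al : ℂ) * R z v w w - al * (g z w * R w v v v) + 2 * R z v v v * g w w).re = 0 := by
  have hp (t : ℝ) : g (v + (t : ℂ) • z) (w + (t : ℂ) • (-g w z) • v) = 0 := by
    simp only [h.hg.add, h.hg.add2, h.hg.smul, h.hg.smul2, hz, h.hg.perp hw, hv.one, conj_ofReal,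
      map_neg, ← h.hg.cj]
    ring
  have d1 := (((h.hR.der v z v z w ((-g w z) • v) w ((-g w z) • v)).mul
    (h.hg.der v z v z)).const_mul (al : ℂ)).add ((h.hR.der v z v z v z v z).mul
      (h.hg.der w ((-g w z) • v) w ((-g w z) • v)))
  have d2 := (h.dq_der hv hz).mul (h.hg.der w ((-g w z) • v) w ((-g w z) • v))
  have m := min_der (d1.add d2) ?_ fun t => ?_
  · have q := h.dq_var hv hz
    have q' := congrArg conj q
    simp only [map_mul, conj_ofReal, map_ofNat] at q'
    have z0 : (al : ℂ) * (η z v + conj (η z v)) -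
        (be : ℂ) * (2 * (R z v v v + conj (R z v v v))) = 0 := by linear_combination q + q'
    rw [z0] at m
    simp only [ofReal_zero, zero_smul, add_zero, h.hg.smul, h.hg.smul2, h.hR.smul3, h.hR.smul4,
      hz, hw, h.hg.perp hz, h.hg.perp hw, hv.one, mul_zero, zero_mul, mul_one] at m
    rw [h.hR.cj z v w w, h.hR.cj z v v v, h.hR.sym v v z v, h.hR.sym2 v v v z, h.hR.cj z v v v,
      h.hR.sym v v w v, h.hR.sym2 v v v w, h.hR.cj w v v v, h.hg.cj z w, h.hg.real w] at m
    rw [h.hg.real w]
    simp at m ⊢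
    linarith
  · have a := h.vv_diag hv hw
    have b := hv.null
    rw [h.dq_re] at b
    simp only [Pi.add_apply, Pi.mul_apply, ofReal_zero, zero_smul, add_zero, hv.one, mul_one] at b ⊢
    rw [h.hR.real v v, a, zero_add, h.hg.real w, ← h.hR.real v v, mul_re, b]
    simp
  · have a := h.lo _ _ (hp t)
    rw [h.mid_re, h.dq_re] at a
    simp only [Pi.add_apply, Pi.mul_apply]
    rw [add_re, mul_re (_ - _), h.hg.im0]
    linarith

theorem mid_var {z w : V} (hz : g z v = 0) (hw : g w v = 0) :
    (al : ℂ) * R z v w w - al * (g z w * R w v v v) + 2 * R z v v v * g w w = 0 := by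
  have a := h.mid_var_re hv hz hw
  have b := h.mid_var_re hv (z := I • z) (by rw [h.hg.smul, hz, mul_zero]) hw
  rw [h.hg.smul, h.hR.smul, h.hR.smul] at b
  have e : (al : ℂ) * (I * R z v w w) - al * (I * g z w * R w v v v) +
      2 * (I * R z v v v) * g w w =
      I * ((al : ℂ) * R z v w w - al * (g z w * R w v v v) + 2 * R z v v v * g w w) := by ring
  rw [e, I_mul_re, neg_eq_zero] at b
  exact Complex.ext a b

theorem mid_pol {z w w' : V} (hz : g z v = 0) (hw : g w v = 0) (hw' : g w' v = 0) :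
    (al : ℂ) * R z v w w' - al * (g z w' * R w v v v) + 2 * R z v v v * g w w' = 0 := by
  refine polar (φ := fun w w' => (al : ℂ) * R z v w w' - al * (g z w' * R w v v v) +
    2 * R z v v v * g w w') h.hg v (fun x y z => ?_) (fun x y z => ?_) (fun c x z => ?_)
    (fun c x z => ?_) (fun w hw => h.mid_var hv hz hw) hw hw'
  · rw [h.hR.add3, h.hg.add, h.hR.add]; ring
  · rw [h.hR.add4, h.hg.add2, h.hg.add2]; ring
  · rw [h.hR.smul3, h.hg.smul, h.hR.smul]; ring
  · rw [h.hR.smul4, h.hg.smul2, h.hg.smul2]; ring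

theorem al0 : (al : ℂ) ≠ 0 := by exact_mod_cast (by linarith [h.al1] : al ≠ 0)

/-- The component with three null vectors vanishes. -/
theorem a0 {z : V} (hz : g z v = 0) : R z v v v = 0 := by
  obtain ⟨w, w0, w1, w2⟩ := h.three v z
  have a := h.mid_pol hv hz w1 w1
  have b := h.mid_pol hv w1 hz w1
  rw [h.hR.sym w v z w] at b
  rw [h.hg.perp w2] at a b
  have e : (((al + 2) * (g w w).re : ℝ) : ℂ) * R z v v v = 0 := by
    push_cast
    rw [← h.hg.real w]
    linear_combination a - b
  have p : (al + 2) * (g w w).re ≠ 0 := (mul_pos (by linarith [h.al1]) (h.pos w w0)).ne'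
  exact (mul_eq_zero.1 e).resolve_left (by exact_mod_cast p)

/-- The component with one null vector vanishes. -/
theorem t0 {z w w' : V} (hz : g z v = 0) (hw : g w v = 0) (hw' : g w' v = 0) :
    R z v w w' = 0 := by
  have a := h.mid_pol hv hz hw hw'
  rw [h.a0 hv hz, h.a0 hv hw] at a
  exact (mul_eq_zero.1 (by simpa using a)).resolve_left (h.al0 hv)

theorem eta_perp {z : V} (hz : g z v = 0) : η z v = 0 := by
  have a := h.dq_var hv hz
  rw [h.a0 hv hz, mul_zero] at a
  exact (mul_eq_zero.1 a).resolve_left (h.al0 hv)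

/-- The orthogonal decomposition. -/
theorem dec (X : V) : ∃ y, g y v = 0 ∧ X = g X v • v + y :=
  ⟨X + (-g X v) • v, by rw [h.hg.add, h.hg.smul, hv.one]; ring, by simp⟩

/-- The null vector is an eigenvector. -/
theorem eta_v (X : V) : (al : ℂ) * η X v = be * (R v v v v).re * g X v := by
  obtain ⟨y, hy, e⟩ := h.dec hv X
  have a : (al : ℂ) * (η v v).re = be * (R v v v v).re := by exact_mod_cast h.eta_vv hv
  conv_lhs => rw [e, h.he.add, h.he.smul, h.eta_perp hv hy, h.he.real v]
  linear_combination g X v * a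

/-- The curvature in the direction of the null vector. -/
theorem vv (X Y : V) : (al : ℂ) * R v v X Y =
    (R v v v v).re * (-g X Y + (al + 1) * (g X v * g v Y)) := by
  obtain ⟨x, hx, e⟩ := h.dec hv X
  obtain ⟨y, hy, f⟩ := h.dec hv Y
  have a := h.vv_perp hv hx hy
  have b1 : R v v x v = 0 := by rw [h.hR.sym, h.a0 hv hx]
  have b2 : R v v v y = 0 := by rw [h.hR.cj v v y v, h.hR.sym, h.a0 hv hy, map_zero]
  rw [h.hg.cj Y v]
  generalize g X v = c at e
  generalize g Y v = d at f
  rw [e, f]
  simp only [h.hR.add3, h.hR.add4, h.hR.smul3, h.hR.smul4, h.hg.add, h.hg.add2, h.hg.smul,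
    h.hg.smul2, b1, b2, hx, h.hg.perp hy, hv.one]
  rw [← h.hR.real v v] at a ⊢
  linear_combination a

end Pk

end Pool.Agent.Lib.KR91
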