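import Pool.Agent.Lib.KR91.Cases

/-! The case of a null vector with vanishing holomorphic sectional curvature. -/

open Complex ComplexConjugate

set_option linter.unusedVariables false
set_option linter.unusedSectionVars false

noncomputable section

namespace Pool.Agent.Lib.KR91

variable {V : Type} [AddCommGroup V] [Module ℂ V]

/-- A non-negative Hermitian form on a sum. -/
theorem Her.sum_le {η : V → V → ℂ} (he : Her η) (hp : ∀ x, 0 ≤ (η x x).re) {ι : Type}
    (s : Finset ι) (u : ι → V) :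
    (η (∑ a ∈ s, u a) (∑ a ∈ s, u a)).re ≤ s.card * ∑ a ∈ s, (η (u a) (u a)).re := by
  have two (x y : V) : 2 * (η x y).re ≤ (η x x).re + (η y y).re := by
    have a := hp (x + (-1 : ℂ) • y)
    simp only [he.add, he.add2, he.smul, he.smul2] at a
    rw [he.cj x y] at a
    simp at a
    linarith
  have e : η (∑ a ∈ s, u a) (∑ a ∈ s, u a) = ∑ a ∈ s, ∑ b ∈ s, η (u a) (u b) := by
    rw [he.sum1]
    refine Finset.sum_congr rfl fun a _ => ?_
    rw [he.cj, he.sum1, map_sum]
    exact Finset.sum_congr rfl fun b _ => (he.cj _ _).symm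
  have l : 2 * (∑ a ∈ s, ∑ b ∈ s, η (u a) (u b)).re ≤
      ∑ a ∈ s, ∑ b ∈ s, ((η (u a) (u a)).re + (η (u b) (u b)).re) := by
    simp only [re_sum, Finset.mul_sum]
    exact Finset.sum_le_sum fun a _ => Finset.sum_le_sum fun b _ => two _ _
  simp only [Finset.sum_add_distrib, Finset.sum_const, nsmul_eq_mul, ← Finset.mul_sum] at l
  rw [e]
  linarith

namespace Pk

variable {g η : V → V → ℂ} {R : V → V → V → V → ℂ} {al be : ℝ} (h : Pk g η R al be)
  {v : V} (hv : Nv g η R al be v) (hH : (R v v v v).re = 0)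
include h hv hH

theorem eta_kill (X : V) : η X v = 0 := by
  have a := h.eta_v hv X
  rw [hH] at a
  exact (mul_eq_zero.1 (by simpa using a)).resolve_left (h.al0 hv)

theorem vv0 (X Y : V) : R v v X Y = 0 := by
  have a := h.vv hv X Y
  rw [hH] at a
  exact (mul_eq_zero.1 (by simpa using a)).resolve_left (h.al0 hv)

theorem eta_exp0 (c : ℂ) {y : V} (hy : g y v = 0) :
    (η (c • v + y) (c • v + y)).re = (η y y).re := by
  rw [h.eta_exp hv c hy, h.eta_kill hv hH]; simp

theorem eta_nn (X : V) : 0 ≤ (η X X).re := by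
  obtain ⟨y, hy, e⟩ := h.dec hv X
  have a := h.eta_ge hv hy
  rw [hH, zero_mul, mul_zero, zero_add] at a
  rw [e, h.eta_exp0 hv hH _ hy]
  exact (mul_nonneg_iff_of_pos_left (h.alp hv)).1 a

theorem T_le {y : V} (hy : g y v = 0) : 2 * be * (R y v y v).re ≤ al * (η y y).re := by
  have a := h.sec hv 1 hy
  rw [hH] at a
  simp at a
  linarith

theorem R_exp0 (c d : ℂ) {y z : V} (hy : g y v = 0) (hz : g z v = 0) :
    (R (c • v + y) (c • v + y) (d • v + z) (d • v + z)).re =
      2 * (conj c * conj d * R y v z v).re + (R y y z z).re := by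
  rw [h.R_exp hv c d hy hz]
  simp only [h.vv0 hv hH, mul_zero, zero_add, add_re, conj_re]
  ring

theorem bis_aux {w z : V} (hw : g w v = 0) (hz : g z v = 0) :
    al * ((R w w z z).re - 2 * (conj (g z w) * R w v z v).re) + 2 * (R w v w v).re * (g z z).re ≤
      (al - 1) / be * (al * (η w w).re - 2 * be * (R w v w v).re) * (g z z).re := by
  rw [← sub_nonneg]
  refine lim0 (b := (al - 1) / be * (dq g η R al be w * (g z z).re +
      (al * (η w w).re - 2 * be * (R w v w v).re) * normSq (g z w)) -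
      al * ((R w w z z).re - 2 * (conj (g z w) * R w v z v).re) * (g w w).re -
      2 * (R w v w v).re * normSq (g z w) - (R w w w w).re * (g z z).re)
    (c := ((al - 1) / be * dq g η R al be w - (R w w w w).re) * normSq (g z w)) fun s hs => ?_
  obtain ⟨r, q⟩ : ∃ r : ℝ, r * r = s := ⟨_, Real.mul_self_sqrt hs.le⟩
  have hy : g ((r : ℂ) • w) v = 0 := by rw [h.hg.smul, hw, mul_zero]
  have hp : g ((1 : ℂ) • v + (r : ℂ) • w) ((-(r * g z w)) • v + z) = 0 := by
    simp only [h.hg.add, h.hg.add2, h.hg.smul, h.hg.smul2, hw, h.hg.perp hz, hv.one, map_neg,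
      map_mul, conj_ofReal, ← h.hg.cj]
    ring
  have a := h.up _ _ hp
  rw [h.R_exp0 hv hH _ _ hy hz, h.R_exp0 hv hH _ _ hy hy, h.g_exp hv _ hy, h.g_exp hv _ hz,
    h.dq_exp hv _ hy, hH, dq] at a
  simp only [h.hg.smul, h.hg.smul2, h.he.smul, h.he.smul2, h.hR.smul, h.hR.smul2, h.hR.smul3,
    h.hR.smul4, conj_ofReal, map_one, one_mul, map_neg, map_mul, normSq_neg, normSq_ofReal,
    re_ofReal_mul, zero_mul, mul_zero, zero_add, neg_mul, neg_re] at a
  have e : ((r : ℂ) * conj (g z w) * (r * R w v z v)).re =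
      r * r * (conj (g z w) * R w v z v).re := by
    rw [← re_ofReal_mul, ofReal_mul]
    congr 1
    ring
  rw [e] at a
  refine (mul_nonneg_iff_of_pos_left hs).1 ?_
  rw [dq, ← q]
  linarith

/-- The bisectional curvature on the complement. -/
theorem bis {w z : V} (hw : g w v = 0) (hz : g z v = 0) :
    (R w w z z).re ≤ (al - 1) / be * ((η w w).re * (g z z).re) := by
  have a := h.bis_aux hv hH hw hz
  have b := h.bis_aux hv hH (w := I • w) (by rw [h.hg.smul, hw, mul_zero]) hz
  have e1 : R (I • w) (I • w) z z = R w w z z := by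
    rw [h.hR.smul, h.hR.smul2, conj_I]; linear_combination (-R w w z z) * I_mul_I
  have e2 : η (I • w) (I • w) = η w w := by
    rw [h.he.smul, h.he.smul2, conj_I]; linear_combination (-η w w) * I_mul_I
  have e3 : R (I • w) v (I • w) v = -R w v w v := by
    rw [h.hR.smul, h.hR.smul3]; linear_combination (R w v w v) * I_mul_I
  have e4 : conj (g z (I • w)) * R (I • w) v z v = -(conj (g z w) * R w v z v) := by
    rw [h.hR.smul, h.hg.smul2, map_mul, conj_conj]
    linear_combination (conj (g z w) * R w v z v) * I_mul_I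
  rw [e1, e2, e3, e4, neg_re, neg_re] at b
  refine le_of_mul_le_mul_left ?_ (h.alp hv)
  linarith

/-- The bound for the contraction with a non-negative form. -/
theorem star_le {ι : Type} (s : Finset ι) (w : ι → V) :
    ∑ a ∈ s, ∑ b ∈ s, (R (w a) (w a) (w b) (w b)).re ≤
      s.card * (2 * ((al - 1) / be) + al / be) *
        ∑ a ∈ s, (η (w a) (w a)).re * (g (w a) (w a)).re := by
  choose y hy e using fun a => h.dec hv (w a)
  generalize hc : (fun a => g (w a) v) = c
  have e' : ∀ a, w a = c a • v + y a := fun a => by rw [← hc]; exact e a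
  have n1 : ∀ a, (η (w a) (w a)).re = (η (y a) (y a)).re := fun a => by
    rw [e' a, h.eta_exp0 hv hH _ (hy a)]
  have n2 : ∀ a, (g (w a) (w a)).re = normSq (c a) + (g (y a) (y a)).re := fun a => by
    rw [e' a, h.g_exp hv _ (hy a)]
  have n3 : ∀ a b, (R (w a) (w a) (w b) (w b)).re =
      2 * (conj (c a) * conj (c b) * R (y a) v (y b) v).re + (R (y a) (y a) (y b) (y b)).re :=
    fun a b => by rw [e' a, e' b, h.R_exp0 hv hH _ _ (hy a) (hy b)]
  have pb := h.bep hv
  have c0 := h.c0
  have p (a : ι) : 0 ≤ (η (w a) (w a)).re * (g (w a) (w a)).re :=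
    mul_nonneg (h.eta_nn hv hH _) (h.nn _)
  have l1 (a b : ι) : (R (y a) (y a) (y b) (y b)).re ≤ (al - 1) / be *
      ((η (w a) (w a)).re * (g (w a) (w a)).re + (η (w b) (w b)).re * (g (w b) (w b)).re) := by
    have k : ∀ a b, (g (w b) (w b)).re ≤ (g (w a) (w a)).re → (R (y a) (y a) (y b) (y b)).re ≤
        (al - 1) / be * ((η (w a) (w a)).re * (g (w a) (w a)).re) := fun a b k =>
      (h.bis hv hH (hy a) (hy b)).trans (mul_le_mul_of_nonneg_left (by
        rw [← n1]
        exact mul_le_mul_of_nonneg_left (by linarith [n2 b, normSq_nonneg (c b)])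
          (h.eta_nn hv hH _)) c0)
    rcases le_total (g (w b) (w b)).re (g (w a) (w a)).re with t | t
    · exact (k a b t).trans (mul_le_mul_of_nonneg_left (by linarith [p b]) c0)
    · rw [h.hR.swap]
      exact (k b a t).trans (mul_le_mul_of_nonneg_left (by linarith [p a]) c0)
  have l2 := Finset.sum_le_sum fun a (_ : a ∈ s) => Finset.sum_le_sum fun b (_ : b ∈ s) => l1 a b
  simp only [← Finset.mul_sum _ _ ((al - 1) / be), Finset.sum_add_distrib, Finset.sum_const,
    nsmul_eq_mul, ← Finset.mul_sum _ _ (s.card : ℝ)] at l2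
  have hY : g (∑ a ∈ s, conj (c a) • y a) v = 0 := by
    rw [h.hg.sum1]
    exact Finset.sum_eq_zero fun a _ => by rw [h.hg.smul, hy a, mul_zero]
  have l3 := h.T_le hv hH hY
  have l4 : (R (∑ a ∈ s, conj (c a) • y a) v (∑ a ∈ s, conj (c a) • y a) v).re =
      ∑ a ∈ s, ∑ b ∈ s, (conj (c a) * conj (c b) * R (y a) v (y b) v).re := by
    rw [h.hR.sum1, re_sum]
    refine Finset.sum_congr rfl fun a _ => ?_
    rw [h.hR.sum3, re_sum]
    refine Finset.sum_congr rfl fun b _ => ?_
    rw [h.hR.smul, h.hR.smul3, mul_assoc]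
  have l5 := h.he.sum_le (h.eta_nn hv hH) s fun a => conj (c a) • y a
  have l6 : ∑ a ∈ s, (η (conj (c a) • y a) (conj (c a) • y a)).re ≤
      ∑ a ∈ s, (η (w a) (w a)).re * (g (w a) (w a)).re := Finset.sum_le_sum fun a _ => by
    rw [h.he.smul, h.he.smul2, conj_conj, ← mul_assoc, mul_comm (conj _), mul_conj, re_ofReal_mul,
      ← n1, mul_comm]
    exact mul_le_mul_of_nonneg_left (by linarith [n2 a, h.nn (y a)]) (h.eta_nn hv hH _)
  have l7 := l3.trans (mul_le_mul_of_nonneg_left
    (l5.trans (mul_le_mul_of_nonneg_left l6 (Nat.cast_nonneg _))) (h.alp hv).le)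
  rw [l4] at l7
  simp only [n3, Finset.sum_add_distrib, ← Finset.mul_sum]
  have l8 : 2 * ∑ a ∈ s, ∑ b ∈ s, (conj (c a) * conj (c b) * R (y a) v (y b) v).re ≤
      al / be * (s.card * ∑ a ∈ s, (η (w a) (w a)).re * (g (w a) (w a)).re) := by
    rw [div_mul_eq_mul_div, le_div_iff₀ pb]
    linarith
  linarith

end Pk

end Pool.Agent.Lib.KR91
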